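import Mathlib
import Pool.Agent.Helper52.SG.Goals2

namespace Pool.Agent.Helper25.SG.CD2

theorem t : Pool.Agent.Helper52.SG.S_CD2 := by
  intro M _ V Q hV hQ hab hn hco v hv hc
  classical
  let _ : CommGroup V :=
    { (inferInstance : Group V) with mul_comm := fun a b => Subtype.ext (hab a a.2 b b.2) }
  have : Finite Q := hQ
  have : Finite V := hV
  let _ : Fintype Q := Fintype.ofFinite Q
  let φ : Q → V →* V := fun q =>
    { toFun := fun w => ⟨(q : M)⁻¹ * w * q, hn q q.2 w w.2⟩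
      map_one' := Subtype.ext (by simp)
      map_mul' := fun a b => Subtype.ext (by simp [mul_assoc]) }
  have hφ : ∀ (q : Q) (w : V), ((φ q w : V) : M) = (q : M)⁻¹ * w * q := fun q w => rfl
  let N : V →* V := ∏ q : Q, φ q
  have hN : ∀ w : V, N w = ∏ q : Q, φ q w := fun w => by
    simp only [N, MonoidHom.finsetProd_apply]
  have hNφ : ∀ (q : Q) (w : V), N (φ q w) = N w := by
    intro q w
    rw [hN, hN]
    refine Fintype.prod_equiv (Equiv.mulLeft q) _ _ fun q' => ?_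
    apply Subtype.ext
    simp only [hφ, Equiv.coe_mulLeft, Subgroup.coe_mul, mul_inv_rev, mul_assoc]
  have hcl : ∃ h : v ∈ V, N ⟨v, h⟩ = 1 := by
    clear hc
    induction hv using Subgroup.closure_induction with
    | mem x hx =>
      obtain ⟨w, hw, q, hq, rfl⟩ := hx
      have hm : w⁻¹ * (q⁻¹ * w * q) ∈ V := V.mul_mem (V.inv_mem hw) (hn q hq w hw)
      refine ⟨hm, ?_⟩
      have : (⟨w⁻¹ * (q⁻¹ * w * q), hm⟩ : V) = (⟨w, hw⟩ : V)⁻¹ * φ ⟨q, hq⟩ ⟨w, hw⟩ := by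
        apply Subtype.ext; rfl
      rw [this, map_mul, map_inv, hNφ, inv_mul_cancel]
    | one => exact ⟨V.one_mem, map_one N⟩
    | mul x y _ _ hx hy =>
      obtain ⟨h1, h2⟩ := hx
      obtain ⟨h3, h4⟩ := hy
      refine ⟨V.mul_mem h1 h3, ?_⟩
      have : (⟨x * y, V.mul_mem h1 h3⟩ : V) = ⟨x, h1⟩ * ⟨y, h3⟩ := rfl
      rw [this, map_mul, h2, h4, one_mul]
    | inv x _ hx =>
      obtain ⟨h1, h2⟩ := hx
      refine ⟨V.inv_mem h1, ?_⟩
      have : (⟨x⁻¹, V.inv_mem h1⟩ : V) = (⟨x, h1⟩ : V)⁻¹ := rfl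
      rw [this, map_inv, h2, inv_one]
  obtain ⟨hvV, h1⟩ := hcl
  have h2 : N ⟨v, hvV⟩ = (⟨v, hvV⟩ : V) ^ Nat.card Q := by
    rw [hN, Nat.card_eq_fintype_card]
    rw [Finset.prod_congr rfl (g := fun _ => (⟨v, hvV⟩ : V)) (fun q _ => ?_)]
    · simp
    · apply Subtype.ext
      rw [hφ]
      change (q : M)⁻¹ * v * q = v
      rw [mul_assoc, hc q q.2, ← mul_assoc, inv_mul_cancel, one_mul]
  have h3 : (⟨v, hvV⟩ : V) ^ Nat.card V = 1 := pow_card_eq_one'
  rw [h1] at h2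
  have h4 : (⟨v, hvV⟩ : V) = 1 := by
    have := pow_gcd_eq_one.2 ⟨h3, h2.symm⟩
    rwa [hco.gcd_eq_one, pow_one] at this
  exact congrArg Subtype.val h4

end Pool.Agent.Helper25.SG.CD2
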